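import Pool.Agent.Q128.CochMain

/-!
# `K₅`-free graphs with chromatic gap three and any cochromatic number from five on

* `CochColorable G k` (file `Pool.Agent.Q128.CochDefs`): the vertices of `G` can be coloured with
  `k` colours such that every colour class is a clique or an independent set.
* `CochromaticNumberEq G k`: `ζ(G) = k`, the least such number is `k`.
-/

namespace Pool.Agent.Results.MP_a38e10_co.GapThree

open Pool.Agent.Q128.Coch

/-- For every `k ≥ 5` there is a finite graph `G` with `ω(G) < 5`, `ζ(G) = k` and
`χ(G) = k + 3`. -/
theorem result (k : ℕ) (hk : 5 ≤ k) : ∃ (V : Type) (_ : Finite V) (G : SimpleGraph V),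
    G.CliqueFree 5 ∧ CochromaticNumberEq G k ∧ G.chromaticNumber = (k + 3 : ℕ) :=
  gap_three k hk

end Pool.Agent.Results.MP_a38e10_co.GapThree
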